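import Pool.Agent.H464.CW

/-!
# A group with centre of infinite index whose `E_com` is homotopy equivalent to a circle

The group is the integral Heisenberg group of countably infinite rank: triples `(a, b, z)` with
`a, b` finitely supported integer sequences and `z` an integer, with
`(a, b, z) (a', b', z') = (a + a', b + b', z + z' + a . b')`.

Outline of the proof.

* A tuple of elements of the group is a simplex of `E_com` exactly when the commutator form
  `om` satisfies the cocycle identity on it.  Hence there is an infinite cyclic cover, namely the
  simplicial set of tuples of pairs `(g, c)` with `c' - c = om g g'` for any two entries
  (file `HeisData`, relation `adj`; file `Cover`).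
* The realisation of the cover is contractible by an explicit homotopy consisting of four straight
  line motions of barycentric coordinates (files `Contract`, `Homotopy`, `Ends`): first the
  vertices with a large index in a fixed enumeration are dropped as soon as the mass carried by
  vertices with at least this index is at most one half; then every remaining vertex is pushed in
  a fresh isotropic direction; then everything is moved to apex vertices; then to one apex vertex.
* The contraction is assembled into a homotopy that is equivariant for the deck transformations
  (file `Circle`), which gives a homotopy equivalence of `E_com` with the circle.
* File `CW` records the standard structure of a finite CW complex on the circle.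
-/

namespace Pool.Agent.Results.MP_510dd6_gt.CircleECom

open H464

/-- There is a group `G` whose centre has infinite index and such that the geometric realisation of
the simplicial set `eCom G` is homotopy equivalent to the circle `ℝ / ℤ`, which is a finite
CW complex. -/
theorem result : ∃ (G : Type) (_ : Group G), Infinite (G ⧸ Subgroup.center G) ∧
    Nonempty (ContinuousMap.HomotopyEquiv (SSet.toTop.obj (eCom G)) (AddCircle (1 : ℝ))) ∧
    ∃ _ : Topology.CWComplex (Set.univ : Set (AddCircle (1 : ℝ))),
      Topology.RelCWComplex.Finite (Set.univ : Set (AddCircle (1 : ℝ))) :=
  ⟨Heis, inferInstance, Subgroup.index_eq_zero_iff_infinite.1 Heis.center_index, ⟨heq⟩, circle_cw⟩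

end Pool.Agent.Results.MP_510dd6_gt.CircleECom
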